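import Pool.Agent.Helper54_QE.Alg
import Mathlib.MeasureTheory.Integral.RieszMarkovKakutani.Real
import Mathlib.Analysis.CStarAlgebra.ContinuousFunctionalCalculus.Basic

/-!
# Module SPEC: the spectral measure of a delta function
-/

set_option autoImplicit false
set_option linter.unusedSectionVars false

open scoped InnerProductSpace ComplexConjugate Topology ENNReal
open MeasureTheory Filter

noncomputable section

namespace Pool.Agent.QE

open Pool.Agent.Anderson Pool.Agent.Helper54.Bal

variable {d : ℕ}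

/-- the composition with the inclusion of the reals -/
def cplx {X : Type*} [TopologicalSpace X] (f : C(X, ℝ)) : C(X, ℂ) :=
  ⟨fun x => (f x : ℂ), Complex.continuous_ofReal.comp f.continuous⟩

/-- a measure representing the diagonal matrix elements of the continuous functional calculus of a
normal operator -/
theorem exists_measure_cfc {H : Type} [NormedAddCommGroup H] [InnerProductSpace ℂ H]
    [CompleteSpace H] (U : H →L[ℂ] H) (hU : IsStarNormal U) (ψ : H) :
    ∃ m : Measure (spectrum ℂ U), IsFiniteMeasure m ∧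
      ∀ f : C(spectrum ℂ U, ℂ), ⟪ψ, cfcHom hU f ψ⟫_ℂ = ∫ x, f x ∂m := by
  have hpos : ∀ f : C(spectrum ℂ U, ℝ), (∀ x, 0 ≤ f x) →
      0 ≤ (⟪ψ, cfcHom hU (cplx f) ψ⟫_ℂ).re := by
    intro f hf
    let g : C(spectrum ℂ U, ℝ) := ⟨fun x => Real.sqrt (f x), by fun_prop⟩
    have hg : cplx f = star (cplx g) * cplx g := by
      ext x
      simp only [ContinuousMap.mul_apply, ContinuousMap.star_apply]
      change ((f x : ℝ) : ℂ) = conj ((Real.sqrt (f x) : ℝ) : ℂ) * ((Real.sqrt (f x) : ℝ) : ℂ)
      rw [Complex.conj_ofReal, ← Complex.ofReal_mul, Real.mul_self_sqrt (hf x)]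
    rw [hg, map_mul, map_star]
    have : ⟪ψ, (star (cfcHom hU (cplx g)) * cfcHom hU (cplx g)) ψ⟫_ℂ =
        ⟪cfcHom hU (cplx g) ψ, cfcHom hU (cplx g) ψ⟫_ℂ := by
      rw [ContinuousLinearMap.star_eq_adjoint]
      change ⟪ψ, ContinuousLinearMap.adjoint (cfcHom hU (cplx g)) (cfcHom hU (cplx g) ψ)⟫_ℂ = _
      rw [ContinuousLinearMap.adjoint_inner_right]
    rw [this]
    exact inner_self_nonneg (𝕜 := ℂ) (x := cfcHom hU (cplx g) ψ)
  have himag : ∀ f : C(spectrum ℂ U, ℝ), (⟪ψ, cfcHom hU (cplx f) ψ⟫_ℂ).im = 0 := by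
    intro f
    have hs : star (cplx f) = cplx f := by
      ext x
      exact Complex.conj_ofReal _
    have h1 : star (cfcHom hU (cplx f)) = cfcHom hU (cplx f) := by
      rw [← map_star, hs]
    have h2 : conj ⟪ψ, cfcHom hU (cplx f) ψ⟫_ℂ = ⟪ψ, cfcHom hU (cplx f) ψ⟫_ℂ := by
      rw [inner_conj_symm]
      conv_rhs => rw [← h1, ContinuousLinearMap.star_eq_adjoint,
        ContinuousLinearMap.adjoint_inner_right]
    exact Complex.conj_eq_iff_im.1 h2
  let Λ₀ : CompactlySupportedContinuousMap (spectrum ℂ U) ℝ →ₗ[ℝ] ℝ :=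
    { toFun := fun f => (⟪ψ, cfcHom hU (cplx f.toContinuousMap) ψ⟫_ℂ).re
      map_add' := by
        intro f g
        have : cplx (f + g).toContinuousMap = cplx f.toContinuousMap + cplx g.toContinuousMap := by
          ext x
          change (((f + g) x : ℝ) : ℂ) = (f x : ℂ) + (g x : ℂ)
          simp
        rw [this, map_add, _root_.add_apply, inner_add_right, Complex.add_re]
      map_smul' := by
        intro c f
        have : cplx (c • f).toContinuousMap = (c : ℂ) • cplx f.toContinuousMap := by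
          ext x
          change (((c • f) x : ℝ) : ℂ) = (c : ℂ) * (f x : ℂ)
          simp
        rw [this, map_smul, _root_.smul_apply, inner_smul_right, Complex.re_ofReal_mul]
        rfl }
  let Λ : CompactlySupportedContinuousMap (spectrum ℂ U) ℝ →ₚ[ℝ] ℝ :=
    { Λ₀ with
      monotone' := by
        intro f g hfg
        have h1 : 0 ≤ Λ₀ (g - f) := by
          apply hpos
          intro x
          have := hfg x
          change 0 ≤ (g - f) x
          simp only [CompactlySupportedContinuousMap.coe_sub, Pi.sub_apply, sub_nonneg]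
          exact this
        rw [map_sub] at h1
        exact sub_nonneg.1 h1 }
  let m := RealRMK.rieszMeasure Λ
  have hm : IsFiniteMeasure m := by infer_instance
  have hreal : ∀ f : C(spectrum ℂ U, ℝ),
      ⟪ψ, cfcHom hU (cplx f) ψ⟫_ℂ = ((∫ x, f x ∂m : ℝ) : ℂ) := by
    intro f
    let f' : CompactlySupportedContinuousMap (spectrum ℂ U) ℝ :=
      ⟨f, HasCompactSupport.of_compactSpace _⟩
    have h1 : ∫ x, f x ∂m = (⟪ψ, cfcHom hU (cplx f) ψ⟫_ℂ).re :=
      RealRMK.integral_rieszMeasure Λ f'
    rw [h1]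
    apply Complex.ext
    · simp
    · rw [himag f]
      simp
  refine ⟨m, hm, fun f => ?_⟩
  let fr : C(spectrum ℂ U, ℝ) := ⟨fun x => (f x).re, by fun_prop⟩
  let fi : C(spectrum ℂ U, ℝ) := ⟨fun x => (f x).im, by fun_prop⟩
  have hf : f = cplx fr + Complex.I • cplx fi := by
    ext x
    change f x = ((f x).re : ℂ) + Complex.I * ((f x).im : ℂ)
    rw [mul_comm]
    exact (Complex.re_add_im _).symm
  have hint : ∀ g : C(spectrum ℂ U, ℂ), Integrable (fun x => g x) m := by
    intro g
    exact (BoundedContinuousFunction.mkOfCompact g).integrable m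
  have h2 : ∫ x, f x ∂m = ∫ x, cplx fr x ∂m + Complex.I * ∫ x, cplx fi x ∂m := by
    rw [← integral_const_mul, ← integral_add (hint _) ((hint _).const_mul _)]
    refine integral_congr_ae (Eventually.of_forall fun x => ?_)
    change f x = ((f x).re : ℂ) + Complex.I * ((f x).im : ℂ)
    rw [mul_comm]
    exact (Complex.re_add_im _).symm
  have h3 : ∀ g : C(spectrum ℂ U, ℝ), ∫ x, cplx g x ∂m = ((∫ x, g x ∂m : ℝ) : ℂ) := by
    intro g
    exact integral_ofReal
  rw [h2, h3, h3, ← hreal, ← hreal]
  conv_lhs => rw [hf]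
  rw [map_add, map_smul, _root_.add_apply, _root_.smul_apply, inner_add_right, inner_smul_right]

theorem cay_real {u : ℂ} (hu : ‖u‖ = 1) (hu1 : u ≠ 1) :
    Complex.I * (1 + u) / (1 - u) = (((Complex.I * (1 + u) / (1 - u)).re : ℝ) : ℂ) := by
  have h0 : u ≠ 0 := by
    rintro rfl
    simp at hu
  have h1 : (1 : ℂ) - u ≠ 0 := sub_ne_zero.2 (Ne.symm hu1)
  have hc : conj u = u⁻¹ := by
    rw [Complex.inv_def, Complex.normSq_eq_norm_sq, hu]
    simp
  have h2 : conj (Complex.I * (1 + u) / (1 - u)) = Complex.I * (1 + u) / (1 - u) := by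
    rw [map_div₀, map_mul, map_add, map_sub, map_one, hc, Complex.conj_I]
    have h3 : (1 : ℂ) - u⁻¹ ≠ 0 := by
      intro h
      apply hu1
      have : u⁻¹ = 1 := (sub_eq_zero.1 h).symm
      exact inv_eq_one.1 this
    rw [div_eq_div_iff h3 h1]
    field_simp
    ring
  exact (Complex.conj_eq_iff_re.1 h2).symm

theorem spec : SpecStatement := by
  intro d V x
  set U : Op d := cay V with hUdef
  have hstar : star U = cayS V := by
    rw [ContinuousLinearMap.star_eq_adjoint, adjoint_cay]
  have hUn : IsStarNormal U := by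
    constructor
    rw [hstar]
    change cayS V * cay V = cay V * cayS V
    rw [cay_mul_cayS, cayS_mul_cay]
  obtain ⟨m₀, hm₀, hm⟩ := exists_measure_cfc U hUn (del x)
  have hcirc : ∀ u : spectrum ℂ U, ‖(u : ℂ)‖ = 1 := by
    intro u
    have hUu : U ∈ unitary (Op d) := by
      rw [Unitary.mem_iff, hstar]
      exact ⟨cayS_mul_cay V, cay_mul_cayS V⟩
    have := spectrum.subset_circle_of_unitary hUu u.2
    simpa using this
  let en : spectrum ℂ U → ℝ := fun u => (Complex.I * (1 + (u : ℂ)) / (1 - (u : ℂ))).re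
  have hen : Measurable en := by
    have : Measurable fun u : spectrum ℂ U => (u : ℂ) := measurable_subtype_coe
    exact Complex.measurable_re.comp
      (((measurable_const.add this).const_mul _).div (measurable_const.sub this))
  let T : Set (spectrum ℂ U) := {u | (u : ℂ) ≠ 1}
  have hT : MeasurableSet T := by
    have : Measurable fun u : spectrum ℂ U => (u : ℂ) := measurable_subtype_coe
    exact (this (measurableSet_singleton (1 : ℂ))).compl
  refine ⟨(m₀.restrict T).map en, inferInstance, fun z hz => ?_⟩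
  -- the function representing `G V (-i)`
  let g : C(spectrum ℂ U, ℂ) := ⟨fun u => (1 - (u : ℂ)) / (2 * Complex.I), by fun_prop⟩
  have hI : (2 * Complex.I : ℂ) ≠ 0 := by simp
  have hg : cfcHom hUn g = G V (-Complex.I) := by
    have e : g = (2 * Complex.I)⁻¹ •
        (1 - (ContinuousMap.id ℂ).restrict (spectrum ℂ U)) := by
      ext u
      change (1 - (u : ℂ)) / (2 * Complex.I) = (2 * Complex.I)⁻¹ * (1 - (u : ℂ))
      rw [div_eq_inv_mul]
    rw [e, map_smul, map_sub, map_one, cfcHom_id, hUdef]
    unfold cay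
    rw [sub_sub_cancel, smul_smul, inv_mul_cancel₀ hI, one_smul]
  let dd : C(spectrum ℂ U, ℂ) := 1 - (z + Complex.I) • g
  have hdd : ∀ u, dd u ≠ 0 := by
    intro u
    by_cases hu : (u : ℂ) = 1
    · have : dd u = 1 - (z + Complex.I) * ((1 - (u : ℂ)) / (2 * Complex.I)) := rfl
      rw [this, hu]
      simp
    · have h1 : dd u = (1 - (u : ℂ)) / (2 * Complex.I) * ((en u : ℂ) - z) := by
        have : dd u = 1 - (z + Complex.I) * ((1 - (u : ℂ)) / (2 * Complex.I)) := rfl
        rw [this]
        change _ = (1 - (u : ℂ)) / (2 * Complex.I) *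
          ((((Complex.I * (1 + (u : ℂ)) / (1 - (u : ℂ))).re : ℝ) : ℂ) - z)
        rw [← cay_real (hcirc u) hu]
        have h2 : (1 : ℂ) - u ≠ 0 := sub_ne_zero.2 (Ne.symm hu)
        field_simp
        ring
      rw [h1]
      refine mul_ne_zero (div_ne_zero (sub_ne_zero.2 (Ne.symm hu)) hI) (real_sub_ne hz _)
  let r : C(spectrum ℂ U, ℂ) := ⟨fun u => g u / dd u,
    Continuous.div g.continuous dd.continuous hdd⟩
  have hr : cfcHom hUn r = G V z := by
    have e1 : r * dd = g := by
      ext u
      exact div_mul_cancel₀ _ (hdd u)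
    have e2 : cfcHom hUn r * (1 - (z + Complex.I) • G V (-Complex.I)) = G V (-Complex.I) := by
      rw [← hg]
      conv_rhs => rw [← e1]
      rw [map_mul, map_sub, map_one, map_smul]
    have e3 : (z + Complex.I) • (G V (-Complex.I) * G V z) = G V z - G V (-Complex.I) := by
      have h := (isRes_G V).ident (-Complex.I) z negI_im_ne hz
      have h4 : (z + Complex.I) = -(-Complex.I - z) := by ring
      rw [h4, neg_smul, ← h, neg_sub]
    have e4 : (1 - (z + Complex.I) • G V (-Complex.I)) * (1 + (z + Complex.I) • G V z) = 1 := by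
      rw [mul_add, mul_one, sub_mul, one_mul, mul_smul_comm, smul_mul_assoc, e3]
      module
    calc cfcHom hUn r = cfcHom hUn r *
          ((1 - (z + Complex.I) • G V (-Complex.I)) * (1 + (z + Complex.I) • G V z)) := by
          rw [e4, mul_one]
      _ = G V (-Complex.I) * (1 + (z + Complex.I) • G V z) := by rw [← mul_assoc, e2]
      _ = G V z := by
          rw [mul_add, mul_one, mul_smul_comm, e3]
          abel
  have h1 : G V z (del x) x = ∫ u, r u ∂m₀ := by
    rw [← hm r, hr, inner_del_left]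
  have h2 : ∫ E : ℝ, 1 / ((E : ℂ) - z) ∂((m₀.restrict T).map en) =
      ∫ u in T, 1 / ((en u : ℂ) - z) ∂m₀ := by
    rw [integral_map hen.aemeasurable]
    apply Measurable.aestronglyMeasurable
    exact measurable_const.div (Complex.measurable_ofReal.sub measurable_const)
  have h3 : ∫ u in T, 1 / ((en u : ℂ) - z) ∂m₀ = ∫ u in T, r u ∂m₀ := by
    refine setIntegral_congr_fun hT fun u hu => ?_
    have hu' : (u : ℂ) ≠ 1 := hu
    have h2 : (1 : ℂ) - u ≠ 0 := sub_ne_zero.2 (Ne.symm hu')
    have h4 := hdd u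
    have e1 : dd u = (1 - (u : ℂ)) / (2 * Complex.I) * ((en u : ℂ) - z) := by
      have : dd u = 1 - (z + Complex.I) * ((1 - (u : ℂ)) / (2 * Complex.I)) := rfl
      rw [this]
      change _ = (1 - (u : ℂ)) / (2 * Complex.I) *
        ((((Complex.I * (1 + (u : ℂ)) / (1 - (u : ℂ))).re : ℝ) : ℂ) - z)
      rw [← cay_real (hcirc u) hu']
      field_simp
      ring
    change 1 / ((en u : ℂ) - z) = (1 - (u : ℂ)) / (2 * Complex.I) / dd u
    rw [e1]
    have h5 := real_sub_ne hz (en u)
    field_simp
  have h4 : ∫ u in T, r u ∂m₀ = ∫ u, r u ∂m₀ := by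
    refine setIntegral_eq_integral_of_forall_compl_eq_zero fun u hu => ?_
    have hu' : (u : ℂ) = 1 := by
      by_contra h
      exact hu h
    change (1 - (u : ℂ)) / (2 * Complex.I) / dd u = 0
    rw [hu']
    simp
  rw [h1, h2, h3, h4]

end Pool.Agent.QE
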